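import Mathlib
import Pool.Agent.H21.Hayashi

set_option autoImplicit false

namespace Pool.Agent.Results.MP_d14d1f_al.Counter

theorem result :
    ¬ (∀ (G : Type) [Group G] (C : Set G), (∃ a : G, C = {x : G | IsConj a x}) → C.Finite →
      Subgroup.closure C = ⊤ →
      ∀ c ∈ C, ∃ z ∈ C, ∀ k : ℤ, (c ^ k ∈ Subgroup.center G ↔ c ^ k * z = z * c ^ k)) := by
  intro h
  obtain ⟨z, hz, hk⟩ := h Pool.Agent.H21.Hayashi.W {x | IsConj Pool.Agent.H21.Hayashi.c x}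
    ⟨_, rfl⟩ (Set.toFinite _) Pool.Agent.H21.Hayashi.gen Pool.Agent.H21.Hayashi.c (IsConj.refl _)
  obtain ⟨k, h1, h2⟩ := Pool.Agent.H21.Hayashi.bad z hz
  apply h2
  have := (hk (k : ℤ)).2 (by rw [zpow_natCast]; exact h1.eq)
  rwa [zpow_natCast] at this

end Pool.Agent.Results.MP_d14d1f_al.Counter
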